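import Mathlib

set_option autoImplicit false

/-!
Fibre sums (entropies) of functions on a finite set, submodularity, and the two-sided Shearer
inequality for meets.
-/

namespace Pool.Agent.H17.AB

open Finset

open Classical in
/-- the fibre of `f` through `x` -/
noncomputable def nf {Ω α : Type*} [Fintype Ω] (f : Ω → α) (x : Ω) : ℕ := #{y : Ω | f y = f x}

/-- the fibre sum: `N (log N - entropy)` -/
noncomputable def S {Ω α : Type*} [Fintype Ω] (f : Ω → α) : ℝ := ∑ x : Ω, Real.log (nf f x)

theorem nf_pos {Ω α : Type*} [Fintype Ω] (f : Ω → α) (x : Ω) : 0 < nf f x := by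
  classical
  unfold nf
  exact Finset.card_pos.2 ⟨x, by simp⟩

theorem nf_pos' {Ω α : Type*} [Fintype Ω] (f : Ω → α) (x : Ω) : (0 : ℝ) < nf f x := by
  exact_mod_cast nf_pos f x

/-- `S` decreases when the function gets finer -/
theorem nf_le {Ω α β : Type*} [Fintype Ω] (f : Ω → α) (g : Ω → β)
    (h : ∀ x y, f x = f y → g x = g y) (x : Ω) : nf f x ≤ nf g x := by
  classical
  unfold nf
  refine Finset.card_le_card fun y hy => ?_
  simp only [Finset.mem_filter, Finset.mem_univ, true_and] at hy ⊢
  exact h _ _ hy

theorem S_le {Ω α β : Type*} [Fintype Ω] (f : Ω → α) (g : Ω → β)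
    (h : ∀ x y, f x = f y → g x = g y) : S f ≤ S g := by
  unfold S
  refine Finset.sum_le_sum fun x _ => ?_
  apply Real.log_le_log (nf_pos' f x)
  exact_mod_cast nf_le f g h x

theorem S_congr {Ω α β : Type*} [Fintype Ω] (f : Ω → α) (g : Ω → β)
    (h : ∀ x y, f x = f y ↔ g x = g y) : S f = S g :=
  le_antisymm (S_le f g fun x y => (h x y).1) (S_le g f fun x y => (h x y).2)

/-- submodularity: if `f` and `h` both determine `g` then `S f + S h ≤ S (f, h) + S g` -/
theorem submod {Ω α β γ : Type*} [Fintype Ω] (f : Ω → α) (g : Ω → β) (h : Ω → γ)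
    (hf : ∀ x y, f x = f y → g x = g y) (hh : ∀ x y, h x = h y → g x = g y) :
    S f + S h ≤ S (fun x => (f x, h x)) + S g := by
  classical
  set k : Ω → α × γ := fun x => (f x, h x) with hk
  have key : ∑ x : Ω, ((nf f x : ℝ) * nf h x / (nf k x * nf g x)) ≤ Fintype.card Ω := by
    -- expand
    have e1 : ∀ x : Ω, ((nf f x : ℝ) * nf h x / (nf k x * nf g x)) =
        ∑ y : Ω, ∑ z : Ω, (if f y = f x ∧ h z = h x then 1 / ((nf k x : ℝ) * nf g x) else 0) := by
      intro x
      have h1 : (nf f x : ℝ) = ∑ y : Ω, (if f y = f x then (1 : ℝ) else 0) := by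
        simp [nf]
      have h2 : (nf h x : ℝ) = ∑ z : Ω, (if h z = h x then (1 : ℝ) else 0) := by
        simp [nf]
      rw [div_eq_mul_one_div, h1, h2, Finset.sum_mul_sum, Finset.sum_mul]
      refine Finset.sum_congr rfl fun y _ => ?_
      rw [Finset.sum_mul]
      refine Finset.sum_congr rfl fun z _ => ?_
      by_cases h3 : f y = f x <;> by_cases h4 : h z = h x <;> simp [h3, h4]
    rw [Finset.sum_congr rfl fun x _ => e1 x]
    have e2 : ∑ x : Ω, ∑ y : Ω, ∑ z : Ω,
        (if f y = f x ∧ h z = h x then 1 / ((nf k x : ℝ) * nf g x) else 0) =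
        ∑ y : Ω, ∑ z : Ω, ∑ x : Ω,
        (if f y = f x ∧ h z = h x then 1 / ((nf k x : ℝ) * nf g x) else 0) := by
      rw [Finset.sum_comm]
      exact Finset.sum_congr rfl fun y _ => Finset.sum_comm
    rw [e2]
    have e3 : ∀ y z : Ω, ∑ x : Ω,
        (if f y = f x ∧ h z = h x then 1 / ((nf k x : ℝ) * nf g x) else 0) ≤
        (if g z = g y then 1 / (nf g y : ℝ) else 0) := by
      intro y z
      by_cases hex : ∃ x, f y = f x ∧ h z = h x
      · obtain ⟨x₀, hx1, hx2⟩ := hex
        have hgy : g y = g x₀ := hf _ _ hx1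
        have hgz : g z = g x₀ := hh _ _ hx2
        rw [if_pos (hgz.trans hgy.symm)]
        have e4 : ∀ x : Ω, (if f y = f x ∧ h z = h x then 1 / ((nf k x : ℝ) * nf g x) else 0) =
            (if k x = k x₀ then 1 / ((nf k x₀ : ℝ) * nf g y) else 0) := by
          intro x
          by_cases h5 : f y = f x ∧ h z = h x
          · have h6 : k x = k x₀ := by
              simp only [hk, Prod.mk.injEq]
              exact ⟨h5.1.symm.trans hx1, h5.2.symm.trans hx2⟩
            rw [if_pos h5, if_pos h6]
            have h7 : nf k x = nf k x₀ := by unfold nf; rw [h6]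
            have h8 : nf g x = nf g y := by
              unfold nf; rw [hf _ _ h5.1]
            rw [h7, h8]
          · have h6 : ¬ k x = k x₀ := by
              intro h6
              simp only [hk, Prod.mk.injEq] at h6
              exact h5 ⟨hx1.trans h6.1.symm, hx2.trans h6.2.symm⟩
            rw [if_neg h5, if_neg h6]
        rw [Finset.sum_congr rfl fun x _ => e4 x, ← Finset.sum_filter, Finset.sum_const,
          nsmul_eq_mul]
        have h9 : ((#{x : Ω | k x = k x₀} : ℕ) : ℝ) = nf k x₀ := by
          unfold nf; congr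
        rw [h9]
        have h10 := nf_pos' k x₀
        have h11 := nf_pos' g y
        apply le_of_eq
        field_simp
      · have e4 : ∀ x : Ω, (if f y = f x ∧ h z = h x then 1 / ((nf k x : ℝ) * nf g x) else 0) =
            0 := by
          intro x
          rw [if_neg]
          exact fun h5 => hex ⟨x, h5⟩
        rw [Finset.sum_congr rfl fun x _ => e4 x, Finset.sum_const_zero]
        split_ifs
        · have := nf_pos' g y; positivity
        · exact le_rfl
    refine (Finset.sum_le_sum fun y _ => Finset.sum_le_sum fun z _ => e3 y z).trans ?_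
    have e5 : ∀ y : Ω, ∑ z : Ω, (if g z = g y then 1 / (nf g y : ℝ) else 0) = 1 := by
      intro y
      rw [← Finset.sum_filter, Finset.sum_const, nsmul_eq_mul]
      have h9 : ((#{x : Ω | g x = g y} : ℕ) : ℝ) = nf g y := by
        unfold nf; rfl
      rw [h9]
      have := nf_pos' g y
      field_simp
    rw [Finset.sum_congr rfl fun y _ => e5 y]
    simp
  have h1 : ∀ x : Ω, Real.log (nf f x) + Real.log (nf h x) - Real.log (nf k x) -
      Real.log (nf g x) ≤ (nf f x : ℝ) * nf h x / (nf k x * nf g x) - 1 := by
    intro x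
    have a := nf_pos' f x
    have b := nf_pos' h x
    have c := nf_pos' k x
    have d := nf_pos' g x
    have := Real.log_le_sub_one_of_pos (show 0 < (nf f x : ℝ) * nf h x / (nf k x * nf g x) by
      positivity)
    rw [Real.log_div (by positivity) (by positivity), Real.log_mul a.ne' b.ne',
      Real.log_mul c.ne' d.ne'] at this
    linarith
  have h2 := Finset.sum_le_sum (s := (univ : Finset Ω)) fun x _ => h1 x
  simp only [Finset.sum_sub_distrib, Finset.sum_add_distrib, Finset.sum_const, Finset.card_univ,
    nsmul_eq_mul, mul_one] at h2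
  unfold S
  linarith

end Pool.Agent.H17.AB
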