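import Pool.Agent.H17.FM.AB

set_option autoImplicit false

/-!
The two-sided Shearer step for meets, in fibre-sum form.
-/

namespace Pool.Agent.H17.AB

open Finset

open Classical in
/-- the coordinates outside `A` are hidden -/
noncomputable def msk {ι α : Type*} (A : Finset ι) (x : ι → α) : ι → Option α :=
  fun i => if i ∈ A then some (x i) else none

theorem msk_eq_iff {ι α : Type*} (A : Finset ι) (x y : ι → α) :
    msk A x = msk A y ↔ ∀ i ∈ A, x i = y i := by
  classical
  constructor
  · intro h i hi
    have := congrFun h i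
    simpa [msk, hi] using this
  · intro h
    funext i
    simp only [msk]
    split_ifs with hi
    · rw [h i hi]
    · rfl

/-- Shearer weights -/
theorem weights {L ι κ α : Type*} [Fintype L] (cls : L → κ) (f : L → ι → α)
    (T : Finset ι) : ∃ w : ι → ℝ, (∀ m, 0 ≤ w m) ∧ (∀ m, m ∉ T → w m = 0) ∧
      ∑ m ∈ T, w m = S cls - S (fun x => (cls x, msk T (f x))) ∧
      ∀ A ⊆ T, ∑ m ∈ A, w m ≤ S cls - S (fun x => (cls x, msk A (f x))) := by
  classical
  induction T using Finset.induction_on with
  | empty =>
    have h0 : S (fun x => (cls x, msk (∅ : Finset ι) (f x))) = S cls := by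
      refine S_congr _ _ fun x y => ?_
      simp only [Prod.mk.injEq, msk_eq_iff]
      constructor
      · exact fun h => h.1
      · exact fun h => ⟨h, fun i hi => absurd hi (by simp)⟩
    refine ⟨fun _ => 0, fun _ => le_rfl, fun _ _ => rfl, ?_, ?_⟩
    · rw [h0]; simp
    · intro A hA
      rw [Finset.subset_empty.1 hA, h0]; simp
  | insert a T ha ih =>
    obtain ⟨w, hw0, hwT, hws, hwA⟩ := ih
    set v : ℝ := S (fun x => (cls x, msk T (f x))) - S (fun x => (cls x, msk (insert a T) (f x)))
      with hv
    have hv0 : 0 ≤ v := by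
      have : S (fun x => (cls x, msk (insert a T) (f x))) ≤ S (fun x => (cls x, msk T (f x))) := by
        refine S_le _ _ fun x y h => ?_
        simp only [Prod.mk.injEq, msk_eq_iff] at h ⊢
        exact ⟨h.1, fun i hi => h.2 i (Finset.mem_insert_of_mem hi)⟩
      rw [hv]; linarith
    have hwa : w a = 0 := hwT a ha
    have hupd : ∀ A : Finset ι, a ∉ A → ∑ m ∈ A, Function.update w a v m = ∑ m ∈ A, w m := by
      intro A hA
      refine Finset.sum_congr rfl fun m hm => ?_
      rw [Function.update_of_ne]
      rintro rfl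
      exact hA hm
    refine ⟨Function.update w a v, ?_, ?_, ?_, ?_⟩
    · intro m
      by_cases hm : m = a
      · subst hm; simpa using hv0
      · rw [Function.update_of_ne hm]; exact hw0 m
    · intro m hm
      rw [Finset.mem_insert, not_or] at hm
      rw [Function.update_of_ne hm.1]
      exact hwT m hm.2
    · rw [Finset.sum_insert ha, Function.update_self, hupd T ha, hws, hv]
      ring
    · intro A hA
      by_cases haA : a ∈ A
      · set A' := A.erase a with hA'
        have haA' : a ∉ A' := Finset.notMem_erase a A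
        have hA'T : A' ⊆ T := by
          intro i hi
          rw [hA', Finset.mem_erase] at hi
          rcases Finset.mem_insert.1 (hA hi.2) with h | h
          · exact absurd h hi.1
          · exact h
        have e1 : A = insert a A' := (Finset.insert_erase haA).symm
        rw [e1, Finset.sum_insert haA', Function.update_self, hupd A' haA']
        have h1 := hwA A' hA'T
        -- submodularity
        have h2 := submod (fun x => (cls x, msk T (f x))) (fun x => (cls x, msk A' (f x)))
          (fun x => (cls x, msk (insert a A') (f x)))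
          (fun x y h => by
            simp only [Prod.mk.injEq, msk_eq_iff] at h ⊢
            exact ⟨h.1, fun i hi => h.2 i (hA'T hi)⟩)
          (fun x y h => by
            simp only [Prod.mk.injEq, msk_eq_iff] at h ⊢
            exact ⟨h.1, fun i hi => h.2 i (Finset.mem_insert_of_mem hi)⟩)
        have h3 : S (fun x => ((cls x, msk T (f x)), (cls x, msk (insert a A') (f x)))) =
            S (fun x => (cls x, msk (insert a T) (f x))) := by
          refine S_congr _ _ fun x y => ?_
          simp only [Prod.mk.injEq, msk_eq_iff]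
          constructor
          · rintro ⟨⟨h, h4⟩, -, h5⟩
            refine ⟨h, fun i hi => ?_⟩
            rcases Finset.mem_insert.1 hi with rfl | hi
            · exact h5 i (Finset.mem_insert_self _ _)
            · exact h4 i hi
          · rintro ⟨h, h4⟩
            refine ⟨⟨h, fun i hi => h4 i (Finset.mem_insert_of_mem hi)⟩, h, fun i hi => ?_⟩
            rcases Finset.mem_insert.1 hi with rfl | hi
            · exact h4 i (Finset.mem_insert_self _ _)
            · exact h4 i (Finset.mem_insert_of_mem (hA'T hi))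
        rw [h3] at h2
        rw [hv]
        linarith
      · rw [hupd A haA]
        refine hwA A fun i hi => ?_
        rcases Finset.mem_insert.1 (hA hi) with rfl | h
        · exact absurd hi haA
        · exact h

open Classical in
/-- The step: `H(f(mt)) ≥ H(cls(mt)) + 2 (u / N) (H(f) - H(cls))` in fibre-sum form. -/
theorem step {L ι κ α : Type*} [Fintype L] [Fintype ι] (f : L → ι → α) (cls : L → κ)
    (P : L → Finset ι) (mt : L → L → L) (hfc : ∀ x y, f x = f y → cls x = cls y)
    (hcP : ∀ x y, cls x = cls y → P x = P y)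
    (h1 : ∀ x y, ∀ m ∈ P y, f (mt x y) m = f x m)
    (h2 : ∀ x y, ∀ m ∈ P x, f (mt x y) m = f y m)
    (hmt : ∀ x y x' y', cls x = cls x' → cls y = cls y' → cls (mt x y) = cls (mt x' y'))
    (u : ℝ) (hu : ∀ m, u ≤ (#{y : L | m ∈ P y} : ℝ)) :
    S (fun p : L × L => f (mt p.1 p.2)) + 2 * u * (S cls - S f) ≤
      S (fun p : L × L => cls (mt p.1 p.2)) := by
  obtain ⟨w, hw0, -, hws, hwA⟩ := weights cls f (univ : Finset ι)
  have hSf : S (fun x => (cls x, msk (univ : Finset ι) (f x))) = S f := by
    refine S_congr _ _ fun x y => ?_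
    simp only [Prod.mk.injEq, msk_eq_iff]
    constructor
    · exact fun h => funext fun i => h.2 i (Finset.mem_univ i)
    · exact fun h => ⟨hfc x y h, fun i _ => congrFun h i⟩
  rw [hSf] at hws
  -- submodularity on pairs
  have h3 := submod (fun p : L × L => f (mt p.1 p.2)) (fun p : L × L => cls (mt p.1 p.2))
    (fun p : L × L => (cls p.1, cls p.2)) (fun p q h => hfc _ _ h)
    (fun p q h => by
      simp only [Prod.mk.injEq] at h
      exact hmt _ _ _ _ h.1 h.2)
  set F : L × L → (κ × (ι → Option α)) × (κ × (ι → Option α)) := fun p =>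
    ((cls p.1, msk (P p.2) (f p.1)), (cls p.2, msk (P p.1) (f p.2))) with hF
  have h4 : S (fun p : L × L => (f (mt p.1 p.2), (cls p.1, cls p.2))) ≤ S F := by
    refine S_le _ _ fun p q h => ?_
    simp only [Prod.mk.injEq] at h
    obtain ⟨h5, h6, h7⟩ := h
    simp only [hF, Prod.mk.injEq]
    have hP1 := hcP _ _ h6
    have hP2 := hcP _ _ h7
    refine ⟨⟨h6, ?_⟩, h7, ?_⟩
    · rw [← hP2, msk_eq_iff]
      intro i hi
      rw [← h1 p.1 p.2 i hi, ← h1 q.1 q.2 i (hP2 ▸ hi), h5]
    · rw [← hP1, msk_eq_iff]
      intro i hi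
      rw [← h2 p.1 p.2 i hi, ← h2 q.1 q.2 i (hP1 ▸ hi), h5]
  have hlogF : ∀ p : L × L, Real.log (nf F p) =
      Real.log (nf (fun x => (cls x, msk (P p.2) (f x))) p.1) +
      Real.log (nf (fun x => (cls x, msk (P p.1) (f x))) p.2) := by
    intro p
    rw [← Real.log_mul (nf_pos' _ _).ne' (nf_pos' _ _).ne', ← Nat.cast_mul]
    congr 2
    unfold nf
    rw [← Finset.card_product]
    congr 1
    ext q
    simp only [hF, Finset.mem_filter, Finset.mem_univ, true_and, Finset.mem_product,
      Prod.mk.injEq]
    constructor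
    · rintro ⟨⟨a, b⟩, c, d⟩
      rw [hcP _ _ c] at b
      rw [hcP _ _ a] at d
      exact ⟨⟨a, b⟩, c, d⟩
    · rintro ⟨⟨a, b⟩, c, d⟩
      rw [hcP _ _ c, hcP _ _ a]
      exact ⟨⟨a, b⟩, c, d⟩
  have h5 : S F = 2 * ∑ y : L, S (fun x => (cls x, msk (P y) (f x))) := by
    unfold S
    rw [Finset.sum_congr rfl fun p _ => hlogF p, Fintype.sum_prod_type]
    simp only [Finset.sum_add_distrib]
    rw [Finset.sum_comm]
    ring
  have hlogV : ∀ p : L × L, Real.log (nf (fun p : L × L => (cls p.1, cls p.2)) p) =
      Real.log (nf cls p.1) + Real.log (nf cls p.2) := by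
    intro p
    rw [← Real.log_mul (nf_pos' _ _).ne' (nf_pos' _ _).ne', ← Nat.cast_mul]
    congr 2
    unfold nf
    rw [← Finset.card_product]
    congr 1
    ext q
    simp only [Finset.mem_filter, Finset.mem_univ, true_and, Finset.mem_product,
      Prod.mk.injEq]
  have h6 : S (fun p : L × L => (cls p.1, cls p.2)) = 2 * ∑ _y : L, S cls := by
    unfold S
    rw [Finset.sum_congr rfl fun p _ => hlogV p, Fintype.sum_prod_type]
    simp only [Finset.sum_add_distrib]
    rw [Finset.sum_comm]
    ring
  have h7 : u * ∑ m, w m ≤ ∑ y : L, ∑ m ∈ P y, w m := by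
    have e1 : ∑ y : L, ∑ m ∈ P y, w m = ∑ m, w m * (#{y : L | m ∈ P y} : ℝ) := by
      have e2 : ∀ y : L, ∑ m ∈ P y, w m = ∑ m, if m ∈ P y then w m else 0 := by
        intro y
        rw [Finset.sum_ite_mem]
        simp
      rw [Finset.sum_congr rfl fun y _ => e2 y, Finset.sum_comm]
      refine Finset.sum_congr rfl fun m _ => ?_
      rw [← Finset.sum_filter, Finset.sum_const, nsmul_eq_mul, mul_comm]
    rw [e1, Finset.mul_sum]
    refine Finset.sum_le_sum fun m _ => ?_
    rw [mul_comm]
    exact mul_le_mul_of_nonneg_left (hu m) (hw0 m)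
  have h8 : ∑ y : L, ∑ m ∈ P y, w m ≤
      ∑ y : L, (S cls - S (fun x => (cls x, msk (P y) (f x)))) :=
    Finset.sum_le_sum fun y _ => hwA (P y) (Finset.subset_univ _)
  rw [Finset.sum_sub_distrib] at h8
  rw [hws] at h7
  rw [h6] at h3
  rw [h5] at h4
  nlinarith

end Pool.Agent.H17.AB
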