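import Pool.Agent.H17.FM.AB2

set_option autoImplicit false

/-!
The final contradiction of the exact theorem for bounded breadth, from the two-sided Shearer step.
-/

namespace Pool.Agent.H17.AB

open Finset

/-- Gibbs -/
theorem gibbs {Ω α : Type*} [Fintype Ω] [Fintype α] (Z : Ω → α) (ρ : α → ℝ)
    (hρ : ∀ z, 0 < ρ z) (hρ1 : ∑ z, ρ z ≤ 1) :
    ∑ p : Ω, Real.log (Fintype.card Ω * ρ (Z p)) ≤ S Z := by
  classical
  rcases isEmpty_or_nonempty Ω with hΩ | hΩ
  · simp [S]
  have hc : (0 : ℝ) < Fintype.card Ω := by exact_mod_cast Fintype.card_pos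
  have h1 : ∀ p : Ω, Real.log (Fintype.card Ω * ρ (Z p)) - Real.log (nf Z p) ≤
      Fintype.card Ω * (ρ (Z p) / nf Z p) - 1 := by
    intro p
    have a := nf_pos' Z p
    have b := hρ (Z p)
    have := Real.log_le_sub_one_of_pos
      (show 0 < (Fintype.card Ω : ℝ) * ρ (Z p) / nf Z p by positivity)
    rw [Real.log_div (by positivity) a.ne'] at this
    rw [← mul_div_assoc]
    exact this
  have h2 : ∑ p : Ω, ρ (Z p) / nf Z p ≤ 1 := by
    have e1 : ∑ p : Ω, ρ (Z p) / nf Z p = ∑ z : α, ∑ p ∈ univ.filter (fun p => Z p = z),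
        ρ (Z p) / nf Z p :=
      (Finset.sum_fiberwise (univ : Finset Ω) Z (fun p => ρ (Z p) / nf Z p)).symm
    rw [e1]
    refine le_trans (Finset.sum_le_sum fun z _ => ?_) hρ1
    have e2 : ∀ p ∈ (univ.filter (fun p => Z p = z) : Finset Ω), ρ (Z p) / nf Z p =
        ρ z / (#{q : Ω | Z q = z} : ℝ) := by
      intro p hp
      have hp' : Z p = z := (Finset.mem_filter.1 hp).2
      have : nf Z p = #{q : Ω | Z q = z} := by
        unfold nf
        rw [hp']
      rw [hp', this]
    rw [Finset.sum_congr rfl e2, Finset.sum_const, nsmul_eq_mul]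
    rcases Nat.eq_zero_or_pos (#{q : Ω | Z q = z}) with h0 | h0
    · rw [h0]; simp [(hρ z).le]
    · have h0' : (0 : ℝ) < (#{q : Ω | Z q = z} : ℝ) := by exact_mod_cast h0
      rw [mul_div_cancel₀ _ h0'.ne']
  have h3 := Finset.sum_le_sum (s := (univ : Finset Ω)) fun p _ => h1 p
  simp only [Finset.sum_sub_distrib, ← Finset.mul_sum, Finset.sum_const, Finset.card_univ,
    nsmul_eq_mul, mul_one] at h3
  unfold S
  have h4 : (Fintype.card Ω : ℝ) * ∑ p : Ω, ρ (Z p) / nf Z p ≤ Fintype.card Ω := by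
    calc _ ≤ (Fintype.card Ω : ℝ) * 1 := mul_le_mul_of_nonneg_left h2 hc.le
      _ = _ := mul_one _
  linarith

open Classical in
/-- a map which often falls into a small set -/
theorem S_ge_of_small {L : Type*} [Fintype L] [Nonempty L] (Z : L × L → L) (E : Finset L) (δ : ℝ)
    (hδ : 0 < δ) (hδ1 : δ ≤ 1) (hE : (E.card : ℝ) ≤ δ * Fintype.card L)
    (hp : (Fintype.card L : ℝ) ^ 2 / 4 ≤ (#{p : L × L | Z p ∈ E} : ℝ)) :
    (Fintype.card L : ℝ) ^ 2 * (Real.log (Fintype.card L) - Real.log 2) +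
      (Fintype.card L : ℝ) ^ 2 / 4 * Real.log (1 / δ) ≤ S Z := by
  set N : ℝ := (Fintype.card L : ℝ) with hN
  have hNpos : 0 < N := by rw [hN]; exact_mod_cast Fintype.card_pos
  have hEpos : (0 : ℝ) < E.card := by
    have : E.Nonempty := by
      by_contra h0
      rw [Finset.not_nonempty_iff_eq_empty] at h0
      rw [h0] at hp
      simp only [Finset.notMem_empty, Finset.filter_false, Finset.card_empty,
        Nat.cast_zero] at hp
      have : 0 < N ^ 2 / 4 := by positivity
      linarith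
    exact_mod_cast this.card_pos
  set ρ : L → ℝ := fun z => 1 / (2 * N) + if z ∈ E then 1 / (2 * (E.card : ℝ)) else 0 with hρ
  have hρ0 : ∀ z, 0 < ρ z := by
    intro z
    simp only [hρ]
    have : 0 < 1 / (2 * N) := by positivity
    split_ifs
    · positivity
    · linarith
  have hρ1 : ∑ z, ρ z ≤ 1 := by
    simp only [hρ, Finset.sum_add_distrib, Finset.sum_const, Finset.card_univ, nsmul_eq_mul,
      ← hN, Finset.sum_ite_mem, Finset.univ_inter]
    apply le_of_eq
    field_simp
    norm_num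
  have h1 := gibbs Z ρ hρ0 hρ1
  have hΩ : (Fintype.card (L × L) : ℝ) = N ^ 2 := by
    rw [Fintype.card_prod, hN]; push_cast; ring
  rw [hΩ] at h1
  refine le_trans ?_ h1
  have hlogδ : 0 ≤ Real.log (1 / δ) := Real.log_nonneg (by rw [le_div_iff₀ hδ]; linarith)
  have h2 : ∀ p : L × L, (Real.log N - Real.log 2) + (if Z p ∈ E then Real.log (1 / δ) else 0) ≤
      Real.log (N ^ 2 * ρ (Z p)) := by
    intro p
    have h3 : Real.log N - Real.log 2 = Real.log (N / 2) := by
      rw [Real.log_div hNpos.ne' (by norm_num)]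
    rw [h3]
    split_ifs with hz
    · rw [← Real.log_mul (by positivity) (by positivity)]
      apply Real.log_le_log (by positivity)
      simp only [hρ, if_pos hz]
      have h4 : 1 / (2 * (δ * N)) ≤ 1 / (2 * (E.card : ℝ)) := by
        apply one_div_le_one_div_of_le (by positivity)
        linarith
      calc N / 2 * (1 / δ) = N ^ 2 * (1 / (2 * (δ * N))) := by field_simp
        _ ≤ N ^ 2 * (1 / (2 * (E.card : ℝ))) := mul_le_mul_of_nonneg_left h4 (by positivity)
        _ ≤ N ^ 2 * (1 / (2 * N) + 1 / (2 * (E.card : ℝ))) := by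
            apply mul_le_mul_of_nonneg_left _ (by positivity)
            have : 0 < 1 / (2 * N) := by positivity
            linarith
    · rw [add_zero]
      apply Real.log_le_log (by positivity)
      simp only [hρ, if_neg hz, add_zero]
      apply le_of_eq
      field_simp
  refine le_trans ?_ (Finset.sum_le_sum fun p _ => h2 p)
  rw [Finset.sum_add_distrib, Finset.sum_const, Finset.card_univ, nsmul_eq_mul, hΩ,
    ← Finset.sum_filter, Finset.sum_const, nsmul_eq_mul]
  have := mul_le_mul_of_nonneg_right hp hlogδ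
  linarith

open Classical in
theorem S_ge_classes {L κ : Type*} [Fintype L] [Nonempty L] (cls : L → κ) (K : ℝ)
    (hK : (((univ : Finset L).image cls).card : ℝ) ≤ K) :
    Fintype.card L * (Real.log (Fintype.card L) - Real.log K) ≤ S cls := by
  set N : ℝ := (Fintype.card L : ℝ) with hN
  have hNpos : 0 < N := by rw [hN]; exact_mod_cast Fintype.card_pos
  set I := (univ : Finset L).image cls with hI
  have hIpos : (0 : ℝ) < I.card := by
    have : 0 < I.card := Finset.card_pos.2 (Finset.univ_nonempty.image _)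
    exact_mod_cast this
  set c' : L → {s // s ∈ I} := fun x => ⟨cls x, Finset.mem_image_of_mem _ (Finset.mem_univ x)⟩
    with hc'
  have h1 := gibbs c' (fun _ => 1 / (I.card : ℝ)) (fun _ => by positivity) (by
    rw [Finset.sum_const, Finset.card_univ, Fintype.card_coe, nsmul_eq_mul]
    apply le_of_eq
    field_simp)
  have h2 : S c' = S cls := S_congr _ _ fun x y => by simp [hc']
  rw [h2] at h1
  refine le_trans ?_ h1
  rw [Finset.sum_const, Finset.card_univ, nsmul_eq_mul, ← hN]
  refine mul_le_mul_of_nonneg_left ?_ hNpos.le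
  rw [mul_one_div, Real.log_div hNpos.ne' hIpos.ne']
  have := Real.log_le_log hIpos hK
  linarith

open Classical in
theorem S_le_max {Ω α : Type*} [Fintype Ω] (f : Ω → α) :
    S f ≤ Fintype.card Ω * Real.log (Fintype.card Ω) := by
  unfold S
  have : ∀ x : Ω, Real.log (nf f x) ≤ Real.log (Fintype.card Ω) := by
    intro x
    apply Real.log_le_log (nf_pos' f x)
    have : nf f x ≤ Fintype.card Ω := by
      unfold nf
      exact Finset.card_le_univ _
    exact_mod_cast this
  refine (Finset.sum_le_sum fun x _ => this x).trans ?_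
  rw [Finset.sum_const, Finset.card_univ, nsmul_eq_mul]

theorem S_inj {L α : Type*} [Fintype L] (f : L → α) (hf : Function.Injective f) : S f = 0 := by
  classical
  unfold S
  refine Finset.sum_eq_zero fun x _ => ?_
  have : nf f x = 1 := by
    unfold nf
    rw [Finset.card_eq_one]
    refine ⟨x, ?_⟩
    ext y
    simp only [Finset.mem_filter, Finset.mem_univ, true_and, Finset.mem_singleton]
    exact ⟨fun h => hf h, fun h => by rw [h]⟩
  rw [this]; simp

open Classical in
/-- The final inequality. -/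
theorem final {L : Type*} [Lattice L] [Fintype L] [Nonempty L] {ι : Type*} [Fintype ι]
    (j g g1 : ι → L) (hinj : ∀ x y : L, (∀ m, x ⊓ j m = y ⊓ j m) → x = y)
    (hjg : ∀ m, j m ≤ g m) (hg1 : ∀ m, g m ≤ g1 m) (e e1 : ℝ) (he : 0 ≤ e) (he1 : 0 ≤ e1)
    (hee : e + e1 ≤ 1 / 2)
    (hA : ∀ m, (1 / 2 - e) * Fintype.card L ≤ (#{y : L | g m ≤ y} : ℝ))
    (hB : ∀ m, (1 / 2 - e - e1) * Fintype.card L ≤ (#{y : L | g1 m ≤ y} : ℝ))
    (hF : ∀ x x', (∀ m, (g m ≤ x ↔ g m ≤ x')) → ∀ m, (g1 m ≤ x ↔ g1 m ≤ x'))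
    (K K1 : ℝ) (hK1 : 1 ≤ K1)
    (hK : (((univ : Finset L).image (fun x => (univ.filter (fun m => g m ≤ x)))).card : ℝ) ≤ K)
    (hK1' : (((univ : Finset L).image (fun x => (univ.filter (fun m => g1 m ≤ x)))).card : ℝ)
      ≤ K1)
    (E : Finset L) (δ : ℝ) (hδ : 0 < δ) (hδ1 : δ ≤ 1) (hE : (E.card : ℝ) ≤ δ * Fintype.card L)
    (hp : (Fintype.card L : ℝ) ^ 2 / 4 ≤ (#{p : L × L | p.1 ⊓ p.2 ∈ E} : ℝ)) :
    1 / 4 * Real.log (1 / δ) ≤ Real.log 2 + 2 * e * Real.log (Fintype.card L) + Real.log K1 +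
      2 * e1 * Real.log K := by
  set N : ℝ := (Fintype.card L : ℝ) with hN
  have hNpos : 0 < N := by rw [hN]; exact_mod_cast Fintype.card_pos
  set F : L → Finset ι := fun x => univ.filter (fun m => g m ≤ x) with hFdef
  set F1 : L → Finset ι := fun x => univ.filter (fun m => g1 m ≤ x) with hF1def
  have hmF : ∀ x m, m ∈ F x ↔ g m ≤ x := fun x m => by simp [hFdef]
  have hmF1 : ∀ x m, m ∈ F1 x ↔ g1 m ≤ x := fun x m => by simp [hF1def]
  have hFF1 : ∀ x x', F x = F x' → F1 x = F1 x' := by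
    intro x x' h
    have h1 : ∀ m, (g m ≤ x ↔ g m ≤ x') := fun m => by rw [← hmF, ← hmF, h]
    ext m
    rw [hmF1, hmF1]
    exact hF x x' h1 m
  -- step (A)
  have sA := step (fun (x : L) (m : ι) => x ⊓ j m) F F (fun x y => x ⊓ y)
    (fun x y h => by rw [hinj x y fun m => congrFun h m])
    (fun x y h => h)
    (fun x y m hm => by
      have h1 : j m ≤ y := (hjg m).trans ((hmF y m).1 hm)
      change x ⊓ y ⊓ j m = x ⊓ j m
      rw [inf_assoc, inf_eq_right.2 h1])
    (fun x y m hm => by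
      have h1 : j m ≤ x := (hjg m).trans ((hmF x m).1 hm)
      change x ⊓ y ⊓ j m = y ⊓ j m
      rw [inf_comm x y, inf_assoc, inf_eq_right.2 h1])
    (fun x y x' y' h h' => by
      ext m
      have a : (g m ≤ x ↔ g m ≤ x') := by rw [← hmF, ← hmF, h]
      have b : (g m ≤ y ↔ g m ≤ y') := by rw [← hmF, ← hmF, h']
      rw [hmF, hmF, le_inf_iff, le_inf_iff, a, b])
    ((1 / 2 - e) * N) (fun m => by
      have := hA m
      simpa [hFdef] using this)
  have hS0 : S (fun (x : L) (m : ι) => x ⊓ j m) = 0 :=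
    S_inj _ fun x y h => hinj x y fun m => congrFun h m
  have hSm : S (fun p : L × L => fun m : ι => p.1 ⊓ p.2 ⊓ j m) = S (fun p : L × L => p.1 ⊓ p.2) :=
    S_congr _ _ fun p q => ⟨fun h => hinj _ _ fun m => congrFun h m, fun h => by rw [h]⟩
  rw [hS0, hSm] at sA
  -- step (B)
  have sB := step (fun (x : L) (m : ι) => (g m ≤ x)) F1 F1 (fun x y => x ⊓ y)
    (fun x y h => by
      refine hFF1 x y ?_
      ext m
      rw [hmF, hmF]
      exact iff_of_eq (congrFun h m))
    (fun x y h => h)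
    (fun x y m hm => by
      have h1 : g m ≤ y := (hg1 m).trans ((hmF1 y m).1 hm)
      change (g m ≤ x ⊓ y) = (g m ≤ x)
      rw [le_inf_iff]
      exact propext ⟨fun h => h.1, fun h => ⟨h, h1⟩⟩)
    (fun x y m hm => by
      have h1 : g m ≤ x := (hg1 m).trans ((hmF1 x m).1 hm)
      change (g m ≤ x ⊓ y) = (g m ≤ y)
      rw [le_inf_iff]
      exact propext ⟨fun h => h.2, fun h => ⟨h1, h⟩⟩)
    (fun x y x' y' h h' => by
      ext m
      have a : (g1 m ≤ x ↔ g1 m ≤ x') := by rw [← hmF1, ← hmF1, h]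
      have b : (g1 m ≤ y ↔ g1 m ≤ y') := by rw [← hmF1, ← hmF1, h']
      rw [hmF1, hmF1, le_inf_iff, le_inf_iff, a, b])
    ((1 / 2 - e - e1) * N) (fun m => by
      have := hB m
      simpa [hF1def] using this)
  have hSF : S (fun (x : L) (m : ι) => (g m ≤ x)) = S F := S_congr _ _ fun x y => by
    constructor
    · intro h
      ext m
      rw [hmF, hmF]
      exact iff_of_eq (congrFun h m)
    · intro h
      funext m
      exact propext (by rw [← hmF, ← hmF, h])
  have hSF2 : S (fun p : L × L => fun m : ι => (g m ≤ p.1 ⊓ p.2)) =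
      S (fun p : L × L => F (p.1 ⊓ p.2)) := S_congr _ _ fun p q => by
    constructor
    · intro h
      ext m
      rw [hmF, hmF]
      exact iff_of_eq (congrFun h m)
    · intro h
      funext m
      exact propext (by rw [← hmF, ← hmF, h])
  rw [hSF, hSF2] at sB
  -- bounds
  have hmax := S_le_max (fun p : L × L => F1 (p.1 ⊓ p.2))
  have hΩ : (Fintype.card (L × L) : ℝ) = N ^ 2 := by
    rw [Fintype.card_prod, hN]; push_cast; ring
  rw [hΩ, Real.log_pow] at hmax
  have hSK1 := S_ge_classes F1 K1 (by convert hK1')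
  have hSK := S_ge_classes F K (by convert hK)
  rw [← hN] at hSK1 hSK
  have hlow := S_ge_of_small (fun p : L × L => p.1 ⊓ p.2) E δ hδ hδ1 hE hp
  rw [← hN] at hlow
  set l := Real.log N with hl
  have hlogK1 : 0 ≤ Real.log K1 := Real.log_nonneg hK1
  have t1 : 2 * ((1 / 2 - e - e1) * N) * (N * (l - Real.log K1)) ≤
      2 * ((1 / 2 - e - e1) * N) * S F1 :=
    mul_le_mul_of_nonneg_left hSK1 (by
      have : 0 ≤ 1 / 2 - e - e1 := by linarith
      positivity)
  have t2 : 2 * (e1 * N) * (N * (l - Real.log K)) ≤ 2 * (e1 * N) * S F :=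
    mul_le_mul_of_nonneg_left hSK (by positivity)
  have t3 : 0 ≤ (e + e1) * Real.log K1 := by positivity
  have key : N ^ 2 * (1 / 4 * Real.log (1 / δ)) ≤ N ^ 2 * (Real.log 2 + 2 * e * l + Real.log K1 +
      2 * e1 * Real.log K) := by
    have t4 : 0 ≤ N ^ 2 * (2 * ((e + e1) * Real.log K1)) := by positivity
    push_cast at hmax
    nlinarith
  exact le_of_mul_le_mul_left key (by positivity)

end Pool.Agent.H17.AB
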