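import Pool.Agent.H17.FM.Final

set_option autoImplicit false

/-!
Asymptotic form of Frankl's conjecture for lattices of bounded breadth: weights and double count.
-/

namespace Pool.Agent.H17.Br

open Finset Pool.Agent.H39.Fr.Ent

variable {L : Type*} [Lattice L] [Fintype L] {r : ℕ}

open Classical in
theorem exists_w {κ : Type*} (j g : Fin r → L) (hg : ∀ m, j m ≤ g m)
    (hinj : ∀ x y : L, (∀ m, x ⊓ j m = y ⊓ j m) → x = y)
    (cls : L → κ) (hcls : ∀ x y, cls x = cls y → ∀ m, (g m ≤ x ↔ g m ≤ y)) :
    ∃ w : κ → Fin r → ℝ, (∀ S m, 0 ≤ w S m) ∧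
      (∀ x, ∑ m, w (cls x) m = Real.log (univ.filter (fun y => cls y = cls x)).card) ∧
      (∀ x y, ∑ m ∈ univ.filter (fun m => g m ≤ y), w (cls x) m +
        ∑ m ∈ univ.filter (fun m => g m ≤ x), w (cls y) m ≤ Real.log (Fintype.card L)) := by
  set f : L → Fin r → L := fun y m => y ⊓ j m with hf
  set D : κ → Finset (Fin r → L) :=
    fun S => (univ.filter (fun y => cls y = S)).image f with hD
  have hex : ∀ S : κ, ∃ w : Fin r → ℝ, (∀ m, 0 ≤ w m) ∧
      ((D S).Nonempty → ∑ m, w m = Real.log (D S).card ∧
        ∀ A : Finset (Fin r), ∑ m ∈ A, w m ≤ Real.log ((D S).image (mask A)).card) := by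
    intro S
    by_cases hS : (D S).Nonempty
    · obtain ⟨w, h0, hs, hA⟩ := exists_weights (D S) hS
      exact ⟨w, h0, fun _ => ⟨hs, hA⟩⟩
    · exact ⟨fun _ => 0, fun _ => le_rfl, fun h => absurd h hS⟩
  choose w hw0 hw using hex
  have hne : ∀ x, (D (cls x)).Nonempty := by
    intro x
    refine ⟨f x, ?_⟩
    simp only [hD]
    exact Finset.mem_image_of_mem f (by simp)
  have hfinj : Function.Injective f := by
    intro x y hxy
    exact hinj x y (fun m => congrFun hxy m)
  refine ⟨w, hw0, ?_, ?_⟩
  · intro x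
    rw [(hw _ (hne x)).1]
    simp only [hD]
    rw [Finset.card_image_of_injective _ hfinj]
  · intro x y
    have h1 := (hw _ (hne x)).2 (univ.filter (fun m => g m ≤ y))
    have h2 := (hw _ (hne y)).2 (univ.filter (fun m => g m ≤ x))
    set P : Finset (Fin r) := univ.filter (fun m => g m ≤ y) with hP
    set Q : Finset (Fin r) := univ.filter (fun m => g m ≤ x) with hQ
    set A := (D (cls x)).image (mask P) with hA
    set B := (D (cls y)).image (mask Q) with hB
    have hApos : (0 : ℝ) < A.card := by
      exact_mod_cast ((hne x).image _).card_pos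
    have hBpos : (0 : ℝ) < B.card := by
      exact_mod_cast ((hne y).image _).card_pos
    have hsub : A ×ˢ B ⊆
        (univ : Finset L).image (fun z => (mask P (f z), mask Q (f z))) := by
      rintro ⟨a, b⟩ hab
      rw [Finset.mem_product] at hab
      obtain ⟨ha, hb⟩ := hab
      simp only [hA, hB, hD, Finset.mem_image, Finset.mem_filter, Finset.mem_univ,
        true_and] at ha hb
      obtain ⟨a', ⟨u, hu, rfl⟩, hau⟩ := ha
      obtain ⟨b', ⟨v, hv, rfl⟩, hbv⟩ := hb
      rw [Finset.mem_image]
      refine ⟨u ⊓ v, Finset.mem_univ _, ?_⟩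
      rw [← hau, ← hbv]
      refine Prod.ext ?_ ?_
      · funext m
        simp only [mask]
        split_ifs with hm
        · have hm' : g m ≤ y := by simpa [hP] using hm
          have : j m ≤ v := (hg m).trans ((hcls v y hv m).2 hm')
          simp only [hf]
          rw [inf_assoc, inf_eq_right.2 this]
        · rfl
      · funext m
        simp only [mask]
        split_ifs with hm
        · have hm' : g m ≤ x := by simpa [hQ] using hm
          have : j m ≤ u := (hg m).trans ((hcls u x hu m).2 hm')
          simp only [hf]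
          rw [inf_comm u v, inf_assoc, inf_eq_right.2 this]
        · rfl
    have hcard : A.card * B.card ≤ Fintype.card L := by
      rw [← Finset.card_product]
      exact (Finset.card_le_card hsub).trans (Finset.card_image_le.trans (by simp))
    calc ∑ m ∈ P, w (cls x) m + ∑ m ∈ Q, w (cls y) m
        ≤ Real.log A.card + Real.log B.card := add_le_add h1 h2
      _ = Real.log ((A.card : ℝ) * B.card) := (Real.log_mul hApos.ne' hBpos.ne').symm
      _ ≤ Real.log (Fintype.card L) := by
          apply Real.log_le_log (mul_pos hApos hBpos)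
          exact_mod_cast hcard

open Classical in
/-- The double count. -/
theorem count [Nonempty L] {κ : Type*} (j g : Fin r → L) (hg : ∀ m, j m ≤ g m)
    (hinj : ∀ x y : L, (∀ m, x ⊓ j m = y ⊓ j m) → x = y)
    (cls : L → κ) (hcls : ∀ x y, cls x = cls y → ∀ m, (g m ≤ x ↔ g m ≤ y))
    (K : ℕ) (hK : ((univ : Finset L).image cls).card ≤ K) (u : ℝ) (hu0 : 0 ≤ u)
    (hu : ∀ m, u ≤ (#{y : L | g m ≤ y} : ℝ)) :
    2 * u * (Real.log (Fintype.card L) - Real.log K) ≤
      Fintype.card L * Real.log (Fintype.card L) := by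
  obtain ⟨w, h0, h1, h2⟩ := exists_w j g hg hinj cls hcls
  set N : ℝ := (Fintype.card L : ℝ) with hN
  have hNpos : 0 < N := by
    rw [hN]; exact_mod_cast Fintype.card_pos
  -- the sum of the logarithms
  have h3 : N * (Real.log N - Real.log K) ≤ ∑ x : L, ∑ m, w (cls x) m := by
    have h4 := Pool.Agent.H17.FM.sum_log_class (L := L)
      (τ := {s // s ∈ (univ : Finset L).image cls})
      (fun x => ⟨cls x, Finset.mem_image_of_mem _ (Finset.mem_univ x)⟩)
    rw [Fintype.card_coe] at h4
    have h5 : Real.log (((univ : Finset L).image cls).card : ℝ) ≤ Real.log K := by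
      apply Real.log_le_log
      · have : 0 < ((univ : Finset L).image cls).card :=
          Finset.card_pos.2 (Finset.univ_nonempty.image _)
        exact_mod_cast this
      · exact_mod_cast hK
    have h6 : ∑ x : L, ∑ m, w (cls x) m =
        ∑ x : L, Real.log (univ.filter (fun y => cls y = cls x)).card :=
      Finset.sum_congr rfl fun x _ => h1 x
    rw [h6]
    simp only [Subtype.mk.injEq] at h4
    refine le_trans ?_ h4
    rw [← hN]
    exact mul_le_mul_of_nonneg_left (by linarith) hNpos.le
  -- the double sum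
  set S : ℝ := ∑ x : L, ∑ y : L, ∑ m ∈ univ.filter (fun m => g m ≤ y), w (cls x) m with hS
  have h7 : S + S ≤ N * N * Real.log N := by
    have e1 : S = ∑ x : L, ∑ y : L, ∑ m ∈ univ.filter (fun m => g m ≤ x), w (cls y) m := by
      rw [hS, Finset.sum_comm]
    have e2 : ∑ x : L, ∑ y : L, (∑ m ∈ univ.filter (fun m => g m ≤ y), w (cls x) m +
          ∑ m ∈ univ.filter (fun m => g m ≤ x), w (cls y) m) = S + S := by
      simp only [Finset.sum_add_distrib]
      rw [← e1, ← hS]
    rw [← e2]
    calc ∑ x : L, ∑ y : L, (∑ m ∈ univ.filter (fun m => g m ≤ y), w (cls x) m +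
          ∑ m ∈ univ.filter (fun m => g m ≤ x), w (cls y) m)
      _ ≤ ∑ x : L, ∑ y : L, Real.log N :=
          Finset.sum_le_sum fun x _ => Finset.sum_le_sum fun y _ => h2 x y
      _ = N * N * Real.log N := by
          simp only [Finset.sum_const, Finset.card_univ, nsmul_eq_mul, ← hN]
          ring
  have h8 : u * ∑ x : L, ∑ m, w (cls x) m ≤ S := by
    rw [hS, Finset.mul_sum]
    refine Finset.sum_le_sum fun x _ => ?_
    have e3 : ∑ y : L, ∑ m ∈ univ.filter (fun m => g m ≤ y), w (cls x) m =
        ∑ m, w (cls x) m * (#{y : L | g m ≤ y} : ℝ) := by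
      simp only [Finset.sum_filter]
      rw [Finset.sum_comm]
      refine Finset.sum_congr rfl fun m _ => ?_
      rw [← Finset.sum_filter, Finset.sum_const, nsmul_eq_mul, mul_comm]
    rw [e3, Finset.mul_sum]
    refine Finset.sum_le_sum fun m _ => ?_
    rw [mul_comm]
    exact mul_le_mul_of_nonneg_left (hu m) (h0 _ _)
  have h9 : u * (N * (Real.log N - Real.log K)) ≤ S :=
    (mul_le_mul_of_nonneg_left h3 hu0).trans h8
  have h10 : N * (2 * u * (Real.log N - Real.log K)) ≤ N * (N * Real.log N) := by nlinarith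
  exact le_of_mul_le_mul_left h10 hNpos

end Pool.Agent.H17.Br
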