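import Pool.Agent.H17.FM.Gen

set_option autoImplicit false

/-!
Finite lattices and `r` of their elements: the inequality and its consequences.
-/

namespace Pool.Agent.H17.FM

open Finset Pool.Agent.H39.Fr.Ent

open Classical in
/-- For any `r ≥ 1` elements `j m` of a finite lattice such that at most `C` elements have the same
`r`-tuple of meets with the `j m`, one of the `j m` has few elements above it. -/
theorem ineq {L : Type*} [Lattice L] [Fintype L] (r : ℕ) (hr : 0 < r) (j : Fin r → L) (C : ℕ)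
    (hC : ∀ x : L, #{y : L | ∀ m, y ⊓ j m = x ⊓ j m} ≤ C) :
    ∃ m, 2 * (r + 1) * (Real.log (Fintype.card L) - (r * Real.log 2 + Real.log C)) *
        (#{y : L | j m ≤ y} : ℝ) ≤ r * (Fintype.card L * Real.log (Fintype.card L)) := by
  have hne : Nonempty L := ⟨j ⟨0, hr⟩⟩
  have hfin : Nonempty (Fin r) := ⟨⟨0, hr⟩⟩
  obtain ⟨m, -, hm⟩ := Finset.exists_min_image (univ : Finset (Fin r))
    (fun m => #{y : L | j m ≤ y}) ⟨⟨0, hr⟩, Finset.mem_univ _⟩
  refine ⟨m, ?_⟩
  obtain ⟨w, h0, h1, h2, h3⟩ := exists_w j C hC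
  set N : ℝ := (Fintype.card L : ℝ) with hN
  have hNpos : 0 < N := by
    rw [hN]; exact_mod_cast Fintype.card_pos
  set u : ℝ := (#{y : L | j m ≤ y} : ℝ) with hu
  have hC1 : 1 ≤ C := by
    obtain ⟨x⟩ := hne
    exact le_trans (Finset.card_pos.2 ⟨x, by simp⟩) (hC x)
  have hlC : 0 ≤ Real.log C := Real.log_nonneg (by exact_mod_cast hC1)
  have hc : 0 ≤ u / N := by positivity
  have key := core r (u / N) hc (Real.log C) hlC (T j) w h0 (fun x => by convert h1 x) h2 h3 ?_
  · rw [← hN] at key
    have h5 : N * Real.log N ≤ (r + 1) * ((N - 2 * u) * Real.log N +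
        2 * u * (r * Real.log 2 + Real.log C)) := by
      calc N * Real.log N ≤ N * ((r + 1) * ((1 - 2 * (u / N)) * Real.log N +
            2 * (u / N) * (r * Real.log 2 + Real.log C))) :=
            mul_le_mul_of_nonneg_left key hNpos.le
        _ = _ := by field_simp
    nlinarith
  · intro m'
    rw [← hN, div_mul_cancel₀ _ hNpos.ne']
    have : (#{y : L | j m ≤ y}) ≤ #{y : L | j m' ≤ y} := hm m' (Finset.mem_univ _)
    have e : #{y : L | m' ∈ T j y} = #{y : L | j m' ≤ y} := by
      congr 1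
      ext y
      simp [mem_T]
    rw [e, hu]
    exact_mod_cast this

open Classical in
/-- If moreover `N > (2 ^ r * C) ^ (r + 1)` then one of the `j m` has less than half of the
elements above it. -/
theorem rare {L : Type*} [Lattice L] [Fintype L] (r : ℕ) (hr : 0 < r) (j : Fin r → L) (C : ℕ)
    (hC : ∀ x : L, #{y : L | ∀ m, y ⊓ j m = x ⊓ j m} ≤ C)
    (hN : (2 ^ r * C) ^ (r + 1) < Fintype.card L) :
    ∃ m, 2 * #{y : L | j m ≤ y} < Fintype.card L := by
  obtain ⟨m, hm⟩ := ineq r hr j C hC
  refine ⟨m, ?_⟩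
  have hne : Nonempty L := ⟨j ⟨0, hr⟩⟩
  have hC1 : 1 ≤ C := by
    obtain ⟨x⟩ := hne
    exact le_trans (Finset.card_pos.2 ⟨x, by simp⟩) (hC x)
  have hCpos : (0 : ℝ) < C := by exact_mod_cast hC1
  have hr' : (0 : ℝ) < r := by exact_mod_cast hr
  set N : ℝ := (Fintype.card L : ℝ) with hNdef
  set u : ℝ := (#{y : L | j m ≤ y} : ℝ) with hu
  have hupos : 0 < u := by
    have : 0 < #{y : L | j m ≤ y} := Finset.card_pos.2 ⟨j m, by simp⟩
    rw [hu]; exact_mod_cast this
  have hlog : (r + 1) * (r * Real.log 2 + Real.log C) < Real.log N := by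
    have h1 : ((2 ^ r * C : ℝ)) ^ (r + 1) < N := by
      rw [hNdef]; exact_mod_cast hN
    have h2 := Real.log_lt_log (by positivity) h1
    rw [Real.log_pow, Real.log_mul (by positivity) hCpos.ne', Real.log_pow] at h2
    push_cast at h2
    linarith
  have hlC : 0 ≤ Real.log C := Real.log_nonneg (by exact_mod_cast hC1)
  have hl2 : 0 < Real.log 2 := Real.log_pos (by norm_num)
  have hlN : 0 < Real.log N := lt_of_le_of_lt (by positivity) hlog
  have h3 : 2 * r * Real.log N * u < 2 * (r + 1) * (Real.log N - (r * Real.log 2 + Real.log C)) * u := by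
    refine mul_lt_mul_of_pos_right ?_ hupos
    linarith
  have h4 : 2 * r * Real.log N * u < r * (N * Real.log N) := lt_of_lt_of_le h3 hm
  have h5 : (r * Real.log N) * (2 * u) < (r * Real.log N) * N := by linarith
  have h6 : 2 * u < N := lt_of_mul_lt_mul_left h5 (by positivity)
  rw [hu, hNdef] at h6
  exact_mod_cast h6

/-- An element of a finite lattice is determined by the join-irreducibles below it. -/
theorem eq_of_supIrred_le {L : Type*} [Lattice L] [Fintype L] {x y : L}
    (h : ∀ a : L, SupIrred a → (a ≤ x ↔ a ≤ y)) : x = y := by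
  classical
  have hne : Nonempty L := ⟨x⟩
  let _ : BoundedOrder L := Fintype.toBoundedOrder L
  have aux : ∀ x y : L, (∀ a : L, SupIrred a → a ≤ x → a ≤ y) → x ≤ y := by
    intro x y hxy
    obtain ⟨s, hs, hirr⟩ := exists_supIrred_decomposition x
    rw [← hs]
    refine Finset.sup_le fun a ha => hxy a (hirr ha) ?_
    rw [← hs]
    exact Finset.le_sup (f := id) ha
  exact le_antisymm (aux x y fun a ha => (h a ha).1) (aux y x fun a ha => (h a ha).2)

open Classical in
/-- If at most `k` join-irreducibles lie below none of the `j m`, then at most `2 ^ k` elements have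
the same meets with the `j m`. -/
theorem fibre {L : Type*} [Lattice L] [Fintype L] (r : ℕ) (j : Fin r → L) (k : ℕ)
    (hk : #{a : L | SupIrred a ∧ ∀ m, ¬ a ≤ j m} ≤ k) (x : L) :
    #{y : L | ∀ m, y ⊓ j m = x ⊓ j m} ≤ 2 ^ k := by
  set J : Finset L := univ.filter (fun a => SupIrred a ∧ ∀ m, ¬ a ≤ j m) with hJ
  have : #{y : L | ∀ m, y ⊓ j m = x ⊓ j m} ≤ #J.powerset := by
    refine Finset.card_le_card_of_injOn (fun y => J.filter (fun a => a ≤ y)) ?_ ?_
    · intro y _
      simp only [Finset.coe_powerset, Set.mem_preimage, Set.mem_powerset_iff, Finset.coe_subset]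
      exact Finset.filter_subset _ _
    · intro y hy z hz hyz
      simp only [Finset.coe_filter, Finset.mem_univ, true_and, Set.mem_ofPred_eq] at hy hz
      refine eq_of_supIrred_le fun a ha => ?_
      by_cases haJ : ∀ m, ¬ a ≤ j m
      · have haJ' : a ∈ J := by simp [hJ, ha, haJ]
        have := Finset.ext_iff.1 hyz a
        simpa [Finset.mem_filter, haJ'] using this
      · push Not at haJ
        obtain ⟨m, hm⟩ := haJ
        have e1 : a ≤ y ↔ a ≤ y ⊓ j m := by simp [hm]
        have e2 : a ≤ z ↔ a ≤ z ⊓ j m := by simp [hm]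
        rw [e1, e2, hy m, hz m]
  refine this.trans ?_
  rw [Finset.card_powerset]
  exact Nat.pow_le_pow_right (by norm_num) hk

open Classical in
/-- `r ≥ 1` join-irreducibles of a finite lattice with at most `k` join-irreducibles below none of
them. -/
theorem main {L : Type*} [Lattice L] [Fintype L] (r k : ℕ) (hr : 0 < r) (j : Fin r → L)
    (hk : #{a : L | SupIrred a ∧ ∀ m, ¬ a ≤ j m} ≤ k) :
    (∃ m, 2 * (r + 1) * (Real.log (Fintype.card L) - (r + k) * Real.log 2) *
        (#{y : L | j m ≤ y} : ℝ) ≤ r * (Fintype.card L * Real.log (Fintype.card L))) ∧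
    (2 ^ ((r + k) * (r + 1)) < Fintype.card L →
      ∃ m, 2 * #{y : L | j m ≤ y} < Fintype.card L) := by
  have hC := fibre r j k hk
  constructor
  · obtain ⟨m, hm⟩ := ineq r hr j (2 ^ k) hC
    refine ⟨m, ?_⟩
    have e : (r : ℝ) * Real.log 2 + Real.log ((2 ^ k : ℕ) : ℝ) = (r + k) * Real.log 2 := by
      push_cast
      rw [Real.log_pow]; ring
    rw [e] at hm
    exact hm
  · intro hN
    refine rare r hr j (2 ^ k) hC ?_
    rw [← pow_add, ← pow_mul]
    exact hN

end Pool.Agent.H17.FM
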