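import Pool.Agent.H68.Fr.TracePos
import Pool.Agent.H39.Fr.Ent

set_option autoImplicit false

/-!
General form of the theorem on lattices with few maximal join-irreducibles
(proof of helper87; parts of this file adapted from the files of helper38 and helper39).
-/

namespace Pool.Agent.H17.FM

open Finset Pool.Agent.H39.Fr.Ent

section core
variable {L : Type*} [Fintype L]

/-- Jensen: the mean logarithm of the size of the class of `x`. -/
theorem sum_log_class {τ : Type*} [Fintype τ] [DecidableEq τ] [Nonempty L] (T : L → τ) :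
    (Fintype.card L : ℝ) * (Real.log (Fintype.card L) - Real.log (Fintype.card τ)) ≤
      ∑ x : L, Real.log (#{y : L | T y = T x}) := by
  classical
  set N : ℝ := (Fintype.card L : ℝ) with hN
  set K : ℝ := (Fintype.card τ : ℝ) with hK
  have hNpos : 0 < N := by
    rw [hN]
    exact_mod_cast Fintype.card_pos
  have hτ : Nonempty τ := ⟨T (Classical.arbitrary L)⟩
  have hKpos : 0 < K := by
    rw [hK]
    exact_mod_cast Fintype.card_pos
  have hcpos : ∀ x : L, (0 : ℝ) < (#{y : L | T y = T x} : ℝ) := by
    intro x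
    have : (0 : ℕ) < #{y : L | T y = T x} := Finset.card_pos.mpr ⟨x, by simp⟩
    exact_mod_cast this
  have h1 : ∀ x : L, Real.log N - Real.log K - Real.log (#{y : L | T y = T x}) ≤
      N / K * (1 / (#{y : L | T y = T x} : ℝ)) - 1 := by
    intro x
    have h := Real.log_le_sub_one_of_pos
      (show 0 < N / K * (1 / (#{y : L | T y = T x} : ℝ)) from
        mul_pos (div_pos hNpos hKpos) (one_div_pos.mpr (hcpos x)))
    rw [Real.log_mul (div_pos hNpos hKpos).ne' (one_div_pos.mpr (hcpos x)).ne',
      Real.log_div hNpos.ne' hKpos.ne', one_div, Real.log_inv] at h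
    rw [one_div]
    linarith
  have h2 : ∑ x : L, 1 / (#{y : L | T y = T x} : ℝ) ≤ K := by
    have h := Finset.sum_comp (s := (univ : Finset L))
      (f := fun t : τ => 1 / (#{y : L | T y = t} : ℝ)) (g := T)
    rw [h]
    have h3 : ∀ t ∈ (univ : Finset L).image T,
        (#{a ∈ (univ : Finset L) | T a = t}) • (1 / (#{y : L | T y = t} : ℝ)) = 1 := by
      intro t ht
      obtain ⟨x, _, rfl⟩ := Finset.mem_image.mp ht
      rw [nsmul_eq_mul, mul_one_div, div_self (hcpos x).ne']
    rw [Finset.sum_congr rfl h3, Finset.sum_const, nsmul_eq_mul, mul_one, hK]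
    exact_mod_cast Finset.card_le_univ _
  have h4 := Finset.sum_le_sum (s := (univ : Finset L)) fun x _ => h1 x
  simp only [Finset.sum_sub_distrib, ← Finset.mul_sum, Finset.sum_const, Finset.card_univ,
    nsmul_eq_mul, mul_one] at h4
  rw [← hN] at h4
  have h5 : N / K * ∑ x : L, 1 / (#{y : L | T y = T x} : ℝ) ≤ N := by
    calc _ ≤ N / K * K := mul_le_mul_of_nonneg_left h2 (div_pos hNpos hKpos).le
      _ = N := by field_simp
  linarith

/-- The core: weights `w T m` with the pair inequality, when every label `m` lies in at least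
`c * N` of the sets `T y`. -/
theorem core [Nonempty L] (r : ℕ) (c : ℝ) (hc : 0 ≤ c) (lC : ℝ) (hlC : 0 ≤ lC)
    (T : L → Finset (Fin r))
    (w : Finset (Fin r) → Fin r → ℝ)
    (hw0 : ∀ t m, 0 ≤ w t m)
    (hsum : ∀ x : L, Real.log (#{y : L | T y = T x}) - lC ≤ ∑ m, w (T x) m)
    (hz : ∀ x : L, ∀ m ∈ T x, w (T x) m = 0)
    (hpair : ∀ x y : L, ∑ m ∈ T y, w (T x) m + ∑ m ∈ T x, w (T y) m ≤
      Real.log (Fintype.card L))
    (hu : ∀ m, c * Fintype.card L ≤ (#{y : L | m ∈ T y} : ℝ)) :
    Real.log (Fintype.card L) ≤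
      (r + 1) * ((1 - 2 * c) * Real.log (Fintype.card L) + 2 * c * (r * Real.log 2 + lC)) := by
  classical
  set N : ℝ := (Fintype.card L : ℝ) with hN
  set l : ℝ := Real.log N with hl
  have hN1 : 1 ≤ N := by
    rw [hN]
    exact_mod_cast Fintype.card_pos
  have hl0 : 0 ≤ l := Real.log_nonneg hN1
  set a : Fin r → L → ℝ := fun m x => w (T x) m with ha
  set b : Fin r → L → ℝ := fun m x => if m ∈ T x then 1 else 0 with hb
  set P : L → L → ℝ := fun x y => l - ∑ m, (a m x * b m y + b m x * a m y) with hP
  have hPe : ∀ x y, P x y = l - (∑ m ∈ T y, w (T x) m + ∑ m ∈ T x, w (T y) m) := by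
    intro x y
    simp only [hP, ha, hb, Finset.sum_add_distrib, mul_ite, mul_one, mul_zero, ite_mul, one_mul,
      zero_mul]
    congr 2
    · rw [← Finset.sum_filter]
      congr 1
      ext m
      simp
    · rw [← Finset.sum_filter]
      congr 1
      ext m
      simp
  have hP0 : ∀ x y, 0 ≤ P x y := by
    intro x y
    rw [hPe]
    have := hpair x y
    linarith
  have hP1 : ∀ x y, P x y ≤ l := by
    intro x y
    rw [hPe]
    have h1 : 0 ≤ ∑ m ∈ T y, w (T x) m := Finset.sum_nonneg fun m _ => hw0 _ _
    have h2 : 0 ≤ ∑ m ∈ T x, w (T y) m := Finset.sum_nonneg fun m _ => hw0 _ _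
    linarith
  have hPd : ∀ x, P x x = l := by
    intro x
    rw [hPe, Finset.sum_eq_zero (hz x)]
    ring
  have hub : ∀ m, c * N ≤ ∑ y : L, b m y := by
    intro m
    have : ∑ y : L, b m y = (#{y : L | m ∈ T y} : ℝ) := by
      simp [hb]
    rw [this]
    exact hu m
  have h4 : ∑ x : L, ∑ y : L, P x y ≤ N ^ 2 * l - 2 * c * N * ∑ x : L, ∑ m, a m x := by
    have e1 : ∑ x : L, ∑ y : L, P x y = N ^ 2 * l - 2 * ∑ m, (∑ x : L, a m x) * (∑ y : L, b m y) := by
      have e2 : ∑ x : L, ∑ y : L, ∑ m, a m x * b m y = ∑ m, (∑ x : L, a m x) * (∑ y : L, b m y) := by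
        calc _ = ∑ x : L, ∑ m, ∑ y : L, a m x * b m y :=
              Finset.sum_congr rfl fun x _ => Finset.sum_comm
          _ = ∑ m, ∑ x : L, ∑ y : L, a m x * b m y := Finset.sum_comm
          _ = _ := by
              refine Finset.sum_congr rfl fun m _ => ?_
              rw [Finset.sum_mul_sum]
      have e3 : ∑ x : L, ∑ y : L, ∑ m, b m x * a m y = ∑ m, (∑ x : L, a m x) * (∑ y : L, b m y) := by
        calc _ = ∑ x : L, ∑ m, ∑ y : L, b m x * a m y :=
              Finset.sum_congr rfl fun x _ => Finset.sum_comm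
          _ = ∑ m, ∑ x : L, ∑ y : L, b m x * a m y := Finset.sum_comm
          _ = _ := by
              refine Finset.sum_congr rfl fun m _ => ?_
              rw [mul_comm, Finset.sum_mul_sum]
      simp only [hP, Finset.sum_sub_distrib, Finset.sum_add_distrib, e2, e3, Finset.sum_const,
        Finset.card_univ, nsmul_eq_mul, ← hN]
      ring
    rw [e1]
    have e4 : c * N * ∑ x : L, ∑ m, a m x ≤ ∑ m, (∑ x : L, a m x) * (∑ y : L, b m y) := by
      rw [Finset.sum_comm, Finset.mul_sum]
      refine Finset.sum_le_sum fun m _ => ?_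
      rw [mul_comm]
      exact mul_le_mul_of_nonneg_left (hub m) (Finset.sum_nonneg fun x _ => hw0 _ _)
    linarith
  have h5 := sum_log_class T
  have h6 : ∑ x : L, Real.log (#{y : L | T y = T x}) - N * lC ≤ ∑ x : L, ∑ m, a m x := by
    have := Finset.sum_le_sum (s := (univ : Finset L)) fun x _ => hsum x
    simpa [Finset.sum_sub_distrib, hN] using this
  have h7 : Real.log (Fintype.card (Finset (Fin r)) : ℝ) = r * Real.log 2 := by
    rw [Fintype.card_finset, Fintype.card_fin]
    push_cast
    rw [Real.log_pow]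
  rw [h7, ← hN, ← hl] at h5
  have h8 : ∑ x : L, ∑ y : L, P x y ≤
      N ^ 2 * ((1 - 2 * c) * l + 2 * c * (r * Real.log 2 + lC)) := by
    have h56 : N * (l - r * Real.log 2) - N * lC ≤ ∑ x : L, ∑ m, a m x := by linarith
    have : 2 * c * N * (N * (l - r * Real.log 2) - N * lC) ≤ 2 * c * N * ∑ x : L, ∑ m, a m x :=
      mul_le_mul_of_nonneg_left h56 (by positivity)
    nlinarith
  rcases hl0.eq_or_lt with h0 | hpos
  · rw [← h0]
    have : 0 ≤ Real.log 2 := Real.log_nonneg (by norm_num)
    have : 0 ≤ ((r : ℝ) + 1) * ((1 - 2 * c) * 0 + 2 * c * (r * Real.log 2 + lC)) := by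
      rw [mul_zero, zero_add]
      positivity
    exact this
  · have h1 := Pool.Agent.H68.Fr.diag_bound' (n := L) (r := r) (fun x m => a m x)
      (fun x m => b m x) hpos
      (fun x y => by have := hP0 x y; simp only [hP] at this; linarith)
      (fun x y => by have := hP1 x y; simp only [hP] at this; linarith)
      (fun x => by have := hPd x; simp only [hP] at this; linarith)
    have h9 : l * N ^ 2 ≤ (r + 1) * ∑ x : L, ∑ y : L, P x y := by
      rw [hN]; exact h1
    have hNl : 0 < N ^ 2 := by positivity
    have : N ^ 2 * l ≤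
        N ^ 2 * ((r + 1) * ((1 - 2 * c) * l + 2 * c * (r * Real.log 2 + lC))) := by
      calc _ = l * N ^ 2 := by ring
        _ ≤ _ := h9
        _ ≤ (r + 1) * (N ^ 2 * ((1 - 2 * c) * l + 2 * c * (r * Real.log 2 + lC))) :=
            mul_le_mul_of_nonneg_left h8 (by positivity)
        _ = _ := by ring
    exact le_of_mul_le_mul_left this hNl

end core

section lat
variable {L : Type*} [Lattice L] [Fintype L] {r : ℕ}

open Classical in
/-- the indices of the members of the family `j` below `x` -/
noncomputable def T (j : Fin r → L) (x : L) : Finset (Fin r) := univ.filter (fun m => j m ≤ x)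

omit [Fintype L] in
theorem mem_T (j : Fin r → L) (x : L) (m : Fin r) : m ∈ T j x ↔ j m ≤ x := by
  simp [T]

open Classical in
theorem exists_w (j : Fin r → L) (C : ℕ)
    (hC : ∀ x : L, (univ.filter (fun y => ∀ m, y ⊓ j m = x ⊓ j m)).card ≤ C) :
    ∃ w : Finset (Fin r) → Fin r → ℝ, (∀ S m, 0 ≤ w S m) ∧
      (∀ x, Real.log (univ.filter (fun y => T j y = T j x)).card - Real.log C ≤
        ∑ m, w (T j x) m) ∧
      (∀ x, ∀ m ∈ T j x, w (T j x) m = 0) ∧
      (∀ x y, ∑ m ∈ T j y, w (T j x) m + ∑ m ∈ T j x, w (T j y) m ≤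
        Real.log (Fintype.card L)) := by
  set f : L → Fin r → L := fun y m => y ⊓ j m with hf
  set D : Finset (Fin r) → Finset (Fin r → L) :=
    fun S => (univ.filter (fun y => T j y = S)).image f with hD
  have hex : ∀ S : Finset (Fin r), ∃ w : Fin r → ℝ, (∀ m, 0 ≤ w m) ∧
      ((D S).Nonempty → ∑ m, w m = Real.log (D S).card ∧
        ∀ A : Finset (Fin r), ∑ m ∈ A, w m ≤ Real.log ((D S).image (mask A)).card) := by
    intro S
    by_cases hS : (D S).Nonempty
    · obtain ⟨w, h0, hs, hA⟩ := exists_weights (D S) hS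
      exact ⟨w, h0, fun _ => ⟨hs, hA⟩⟩
    · exact ⟨fun _ => 0, fun _ => le_rfl, fun h => absurd h hS⟩
  choose w hw0 hw using hex
  have hne : ∀ x, (D (T j x)).Nonempty := by
    intro x
    refine ⟨f x, ?_⟩
    simp only [hD]
    exact Finset.mem_image_of_mem f (by simp)
  refine ⟨w, hw0, ?_, ?_, ?_⟩
  · intro x
    rw [(hw _ (hne x)).1]
    have hpos : (0 : ℝ) < (univ.filter (fun y => T j y = T j x)).card := by
      have : 0 < (univ.filter (fun y => T j y = T j x)).card :=
        Finset.card_pos.2 ⟨x, by simp⟩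
      exact_mod_cast this
    have hDpos : (0 : ℝ) < (D (T j x)).card := by exact_mod_cast (hne x).card_pos
    have hCpos : (0 : ℝ) < C := by
      have : 0 < C := lt_of_lt_of_le (Finset.card_pos.2 ⟨x, by simp⟩) (hC x)
      exact_mod_cast this
    have hle : (univ.filter (fun y => T j y = T j x)).card ≤ C * (D (T j x)).card := by
      simp only [hD]
      refine Finset.card_le_mul_card_image _ C ?_
      intro b hb
      obtain ⟨z, hz, rfl⟩ := Finset.mem_image.1 hb
      refine (Finset.card_le_card ?_).trans (hC z)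
      intro y hy
      rw [Finset.mem_filter] at hy ⊢
      exact ⟨Finset.mem_univ _, fun m => congrFun hy.2 m⟩
    have hle' : ((univ.filter (fun y => T j y = T j x)).card : ℝ) ≤ C * (D (T j x)).card := by
      exact_mod_cast hle
    have := Real.log_le_log hpos hle'
    rw [Real.log_mul hCpos.ne' hDpos.ne'] at this
    linarith
  · intro x m hm
    have h1 := (hw _ (hne x)).2 {m}
    rw [Finset.sum_singleton] at h1
    have h2 : ((D (T j x)).image (mask {m})).card ≤ 1 := by
      rw [Finset.card_le_one]
      intro a ha b hb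
      simp only [hD, Finset.mem_image, Finset.mem_filter, Finset.mem_univ, true_and] at ha hb
      obtain ⟨a', ⟨y, hy, rfl⟩, rfl⟩ := ha
      obtain ⟨b', ⟨z, hz, rfl⟩, rfl⟩ := hb
      funext i
      simp only [mask, Finset.mem_singleton]
      split_ifs with hi
      · subst hi
        have hy' : j i ≤ y := by
          rw [← mem_T, hy]; exact hm
        have hz' : j i ≤ z := by
          rw [← mem_T, hz]; exact hm
        simp only [hf]
        rw [inf_eq_right.2 hy', inf_eq_right.2 hz']
      · rfl
    have h3 : Real.log (((D (T j x)).image (mask {m})).card : ℝ) ≤ 0 := by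
      apply Real.log_nonpos
      · positivity
      · exact_mod_cast h2
    exact le_antisymm (h1.trans h3) (hw0 _ _)
  · intro x y
    have h1 := (hw _ (hne x)).2 (T j y)
    have h2 := (hw _ (hne y)).2 (T j x)
    set A := (D (T j x)).image (mask (T j y)) with hA
    set B := (D (T j y)).image (mask (T j x)) with hB
    have hApos : (0 : ℝ) < A.card := by
      exact_mod_cast ((hne x).image _).card_pos
    have hBpos : (0 : ℝ) < B.card := by
      exact_mod_cast ((hne y).image _).card_pos
    have hsub : A ×ˢ B ⊆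
        (univ : Finset L).image (fun z => (mask (T j y) (f z), mask (T j x) (f z))) := by
      rintro ⟨a, b⟩ hab
      rw [Finset.mem_product] at hab
      obtain ⟨ha, hb⟩ := hab
      simp only [hA, hB, hD, Finset.mem_image, Finset.mem_filter, Finset.mem_univ,
        true_and] at ha hb
      obtain ⟨a', ⟨u, hu, rfl⟩, hau⟩ := ha
      obtain ⟨b', ⟨v, hv, rfl⟩, hbv⟩ := hb
      rw [Finset.mem_image]
      refine ⟨u ⊓ v, Finset.mem_univ _, ?_⟩
      rw [← hau, ← hbv]
      refine Prod.ext ?_ ?_
      · funext m
        simp only [mask]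
        split_ifs with hm
        · have : j m ≤ v := by
            rw [← mem_T, hv]; exact hm
          simp only [hf]
          rw [inf_assoc, inf_eq_right.2 this]
        · rfl
      · funext m
        simp only [mask]
        split_ifs with hm
        · have : j m ≤ u := by
            rw [← mem_T, hu]; exact hm
          simp only [hf]
          rw [inf_comm u v, inf_assoc, inf_eq_right.2 this]
        · rfl
    have hcard : A.card * B.card ≤ Fintype.card L := by
      rw [← Finset.card_product]
      exact (Finset.card_le_card hsub).trans (Finset.card_image_le.trans (by simp))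
    calc ∑ m ∈ T j y, w (T j x) m + ∑ m ∈ T j x, w (T j y) m
        ≤ Real.log A.card + Real.log B.card := add_le_add h1 h2
      _ = Real.log ((A.card : ℝ) * B.card) := (Real.log_mul hApos.ne' hBpos.ne').symm
      _ ≤ Real.log (Fintype.card L) := by
          apply Real.log_le_log (mul_pos hApos hBpos)
          exact_mod_cast hcard


end lat

end Pool.Agent.H17.FM
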