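import Mathlib

set_option autoImplicit false

namespace Pool.Agent.H17.FM

open Finset

theorem card_small (n b : ℕ) :
    #{I : Finset (Fin n) | I.card ≤ b} ≤ ∑ i ∈ range (b + 1), n.choose i := by
  classical
  have h1 : ({I : Finset (Fin n) | I.card ≤ b} : Finset (Finset (Fin n))) ⊆
      (range (b + 1)).biUnion (fun i => powersetCard i (univ : Finset (Fin n))) := by
    intro I hI
    rw [Finset.mem_filter] at hI
    rw [Finset.mem_biUnion]
    exact ⟨I.card, Finset.mem_range.2 (by omega),
      Finset.mem_powersetCard.2 ⟨Finset.subset_univ _, rfl⟩⟩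
  refine (Finset.card_le_card h1).trans (Finset.card_biUnion_le.trans ?_)
  refine Finset.sum_le_sum fun i _ => ?_
  rw [Finset.card_powersetCard, Finset.card_univ, Fintype.card_fin]

open Classical in
theorem card_values {L : Type*} [Lattice L] [BoundedOrder L] [Fintype L] {ι : Type*} (j : ι → L)
    (b n : ℕ) (hb : ∀ S : Finset L, (∀ a ∈ S, ∃ m, a = j m) →
      ∃ T ⊆ S, T.card ≤ b ∧ T.sup id = S.sup id) (S : Fin n → ι) :
    ((univ : Finset L).image (fun x => (univ.filter (fun i : Fin n => j (S i) ≤ x)).sup
      (fun i => j (S i)))).card ≤ ∑ i ∈ range (b + 1), n.choose i := by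
  have h1 : (univ : Finset L).image (fun x => (univ.filter (fun i : Fin n => j (S i) ≤ x)).sup
      (fun i => j (S i))) ⊆
      ({I : Finset (Fin n) | I.card ≤ b} : Finset (Finset (Fin n))).image
        (fun I => I.sup (fun i => j (S i))) := by
    intro z hz
    obtain ⟨x, -, rfl⟩ := Finset.mem_image.1 hz
    set A : Finset (Fin n) := univ.filter (fun i : Fin n => j (S i) ≤ x) with hA
    obtain ⟨T, hTA, hTb, hT⟩ := hb (A.image (fun i => j (S i))) (by
      intro a ha
      obtain ⟨i, -, rfl⟩ := Finset.mem_image.1 ha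
      exact ⟨S i, rfl⟩)
    have hch : ∀ t : {t // t ∈ T}, ∃ i : Fin n, j (S i) = t := by
      rintro ⟨t, ht⟩
      obtain ⟨i, -, hi⟩ := Finset.mem_image.1 (hTA ht)
      exact ⟨i, hi⟩
    choose c hc using hch
    refine Finset.mem_image.2 ⟨T.attach.image c, ?_, ?_⟩
    · rw [Finset.mem_filter]
      refine ⟨Finset.mem_univ _, Finset.card_image_le.trans ?_⟩
      rw [Finset.card_attach]
      exact hTb
    · have e1 : (T.attach.image c).sup (fun i => j (S i)) = T.sup id := by
        refine le_antisymm ?_ ?_
        · refine Finset.sup_le fun i hi => ?_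
          obtain ⟨t, -, rfl⟩ := Finset.mem_image.1 hi
          rw [hc t]
          exact Finset.le_sup (f := id) t.2
        · refine Finset.sup_le fun t ht => ?_
          have h3 : c ⟨t, ht⟩ ∈ T.attach.image c :=
            Finset.mem_image_of_mem c (Finset.mem_attach T ⟨t, ht⟩)
          have h4 := Finset.le_sup (f := fun i => j (S i)) h3
          have h5 : j (S (c ⟨t, ht⟩)) = t := hc ⟨t, ht⟩
          calc id t = j (S (c ⟨t, ht⟩)) := h5.symm
            _ ≤ _ := h4
      have e2 : (A.image (fun i => j (S i))).sup id = A.sup (fun i => j (S i)) := by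
        rw [Finset.sup_image]
        rfl
      rw [e1, hT, e2]
  exact (Finset.card_le_card h1).trans (Finset.card_image_le.trans (card_small n b))

end Pool.Agent.H17.FM
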